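import Pool.Agent.J4H4.NG.Stm
import Pool.Agent.Helper242.RK.Growth

/-!
# Project NG (helper4): (GRO), the growth of `H_{-b}`
-/

set_option autoImplicit false

namespace Pool.Agent.J4H49.NG

open Complex MeasureTheory Filter Topology Set
open Pool.Agent.J4H4.NG
open Pool.Agent.J4H2.DN (Hd)

noncomputable section

/-- the kernel -/
def kr (b t : ℝ) : ℝ := Real.exp (-b * t ^ 2) * Helper242.RK.Phi t

theorem Phi_eq (u : ℝ) : J4H2.DN.Phi u = Helper242.RK.Phi u := by
  unfold J4H2.DN.Phi Helper242.RK.Phi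
  congr 1
  funext n
  congr 1
  · ring
  · congr 1
    ring

lemma kr_pos (b t : ℝ) : 0 < kr b t := mul_pos (Real.exp_pos _) (Helper242.RK.Phi_pos t)

lemma kr_le {b : ℝ} (hb : 0 < b) (t : ℝ) : kr b t ≤ Helper242.RK.Phi t := by
  unfold kr
  refine mul_le_of_le_one_left (Helper242.RK.Phi_pos t).le (Real.exp_le_one_iff.2 ?_)
  nlinarith [sq_nonneg t]

lemma kr_cont (b : ℝ) : Continuous (kr b) := by
  unfold kr
  exact (by fun_prop : Continuous fun t : ℝ => Real.exp (-b * t ^ 2)).mul Helper242.RK.continuous_Phi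

lemma kr_bd {b : ℝ} (hb : 0 < b) (M : ℝ) : ∃ C : ℝ, 0 < C ∧ ∀ t : ℝ, 0 ≤ t → kr b t ≤ C * Real.exp (-M * t) := by
  obtain ⟨C, hC, h⟩ := Helper242.RK.Phi_rpow_bound one_pos M
  refine ⟨C, hC, fun t ht => (kr_le hb t).trans ?_⟩
  have := h t ht
  rwa [Real.rpow_one] at this

lemma kr_cosh {b : ℝ} (hb : 0 < b) (y : ℝ) :
    IntegrableOn (fun t : ℝ => kr b t * Real.cosh (y * t)) (Set.Ioi 0) := by
  have h := Helper242.RK.integrable_cosh one_pos y
  refine Integrable.mono' h ?_ ?_
  · exact ((kr_cont b).mul (by fun_prop)).aestronglyMeasurable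
  · refine (ae_restrict_iff' measurableSet_Ioi).2 (Eventually.of_forall fun t _ => ?_)
    rw [Real.norm_of_nonneg (mul_nonneg (kr_pos b t).le (Real.cosh_pos _).le), Real.rpow_one]
    exact mul_le_mul_of_nonneg_right (kr_le hb t) (Real.cosh_pos _).le

lemma Hd_eq (b : ℝ) (z : ℂ) : Hd (-b) z = ∫ t in Set.Ioi (0 : ℝ), ((kr b t : ℝ) : ℂ) * Complex.cos (z * t) := by
  unfold Hd
  refine setIntegral_congr_fun measurableSet_Ioi fun t _ => ?_
  unfold kr
  show ((Real.exp (-b * t ^ 2) * J4H2.DN.Phi t : ℝ) : ℂ) * Complex.cos (z * t) = _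
  rw [Phi_eq t]

lemma Hd_I (b y : ℝ) : Hd (-b) (I * y) = ((∫ t in Set.Ioi (0 : ℝ), kr b t * Real.cosh (y * t) : ℝ) : ℂ) := by
  rw [Hd_eq, ← integral_complex_ofReal]
  refine setIntegral_congr_fun measurableSet_Ioi fun t _ => ?_
  rw [show I * (y : ℂ) * t = ((y * t : ℝ) : ℂ) * I by push_cast; ring, cos_mul_I, ← ofReal_cosh]
  push_cast
  ring

lemma Hd_le {b : ℝ} (hb : 0 < b) (z : ℂ) : ‖Hd (-b) z‖ ≤ Helper242.RK.m 1 ‖z‖ := by
  rw [Hd_eq]
  unfold Helper242.RK.m
  refine norm_integral_le_of_norm_le (Helper242.RK.integrable_cosh one_pos ‖z‖) ?_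
  refine (ae_restrict_iff' measurableSet_Ioi).2 (Eventually.of_forall fun t ht => ?_)
  have ht' : (0 : ℝ) < t := ht
  rw [norm_mul, norm_real, Real.norm_of_nonneg (kr_pos b t).le, Real.rpow_one]
  have h1 := Helper242.RK.norm_cos_le (z * t)
  rw [im_mul_ofReal] at h1
  have h2 : Real.cosh (z.im * t) ≤ Real.cosh (‖z‖ * t) := by
    rw [Real.cosh_le_cosh, abs_mul, abs_mul, abs_norm]
    exact mul_le_mul_of_nonneg_right (abs_im_le_norm z) (abs_nonneg t)
  exact mul_le_mul (kr_le hb t) (h1.trans h2) (norm_nonneg _) (Helper242.RK.Phi_pos t).le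

lemma Hd_diff {b : ℝ} (hb : 0 < b) : Differentiable ℂ (Hd (-b)) := by
  have he : Hd (-b) = fun z => ∫ t in Set.Ioi (0 : ℝ), ((kr b t : ℝ) : ℂ) * Complex.cos (z * t) := by
    funext z
    exact Hd_eq b z
  rw [he]
  intro z0
  obtain ⟨C, hC, hbd⟩ := kr_bd hb (‖z0‖ + 3)
  have hmeas : ∀ z : ℂ, AEStronglyMeasurable
      (fun t : ℝ => ((kr b t : ℝ) : ℂ) * Complex.cos (z * t)) (volume.restrict (Set.Ioi 0)) := by
    intro z
    exact ((continuous_ofReal.comp (kr_cont b)).mul (by fun_prop)).aestronglyMeasurable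
  have hint : Integrable (fun t : ℝ => ((kr b t : ℝ) : ℂ) * Complex.cos (z0 * t))
      (volume.restrict (Set.Ioi 0)) := by
    refine Integrable.mono' (kr_cosh hb z0.im) (hmeas z0) ?_
    refine (ae_restrict_iff' measurableSet_Ioi).2 (Eventually.of_forall fun t ht => ?_)
    rw [norm_mul, norm_real, Real.norm_of_nonneg (kr_pos b t).le]
    refine mul_le_mul_of_nonneg_left ?_ (kr_pos b t).le
    have := Helper242.RK.norm_cos_le (z0 * t)
    rwa [im_mul_ofReal] at this
  have h := hasDerivAt_integral_of_dominated_loc_of_deriv_le (μ := volume.restrict (Set.Ioi 0))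
    (F := fun (z : ℂ) (t : ℝ) => ((kr b t : ℝ) : ℂ) * Complex.cos (z * t))
    (F' := fun (z : ℂ) (t : ℝ) => ((kr b t : ℝ) : ℂ) * (-Complex.sin (z * t) * t))
    (x₀ := z0) (bound := fun t => C * Real.exp (-t)) (Metric.ball_mem_nhds z0 one_pos)
    (Eventually.of_forall hmeas) hint ?_ ?_ ((integrableOn_exp_neg_Ioi 0).const_mul C) ?_
  · exact h.2.differentiableAt
  · exact ((continuous_ofReal.comp (kr_cont b)).mul (by fun_prop)).aestronglyMeasurable
  · refine (ae_restrict_iff' measurableSet_Ioi).2 (Eventually.of_forall fun t ht z hz => ?_)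
    have ht' : (0 : ℝ) < t := ht
    have h1 := hbd t ht'.le
    have hzn : ‖z‖ ≤ ‖z0‖ + 1 := by
      have : ‖z - z0‖ < 1 := by simpa [dist_eq_norm] using hz
      calc ‖z‖ = ‖z0 + (z - z0)‖ := by congr 1; ring
        _ ≤ ‖z0‖ + ‖z - z0‖ := norm_add_le _ _
        _ ≤ ‖z0‖ + 1 := by linarith
    have hsin : ‖Complex.sin (z * t)‖ ≤ Real.exp ((‖z0‖ + 1) * t) := by
      rw [Complex.sin, norm_div, norm_mul, norm_I, mul_one]
      have e1 : ‖cexp (-(z * t) * I)‖ ≤ Real.exp ((‖z0‖ + 1) * t) := by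
        rw [norm_exp]
        refine Real.exp_le_exp.2 ((re_le_norm _).trans ?_)
        rw [norm_mul, norm_neg, norm_mul, norm_I, mul_one, norm_real, Real.norm_of_nonneg ht'.le]
        gcongr
      have e2 : ‖cexp ((z * t) * I)‖ ≤ Real.exp ((‖z0‖ + 1) * t) := by
        rw [norm_exp]
        refine Real.exp_le_exp.2 ((re_le_norm _).trans ?_)
        rw [norm_mul, norm_mul, norm_I, mul_one, norm_real, Real.norm_of_nonneg ht'.le]
        gcongr
      have e3 := norm_sub_le (cexp (-(z * t) * I)) (cexp ((z * t) * I))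
      have e4 : ‖(2 : ℂ)‖ = 2 := by simp
      rw [e4]
      linarith
    have ht2 : t ≤ Real.exp t := by linarith [Real.add_one_le_exp t]
    rw [norm_mul, norm_real, Real.norm_of_nonneg (kr_pos b t).le, norm_mul,
      norm_neg, norm_real, Real.norm_of_nonneg ht'.le]
    calc kr b t * (‖Complex.sin (z * t)‖ * t)
        ≤ (C * Real.exp (-(‖z0‖ + 3) * t)) * (Real.exp ((‖z0‖ + 1) * t) * Real.exp t) := by
          gcongr
      _ = C * Real.exp (-t) := by
          rw [mul_assoc, ← Real.exp_add, ← Real.exp_add]; congr 2; ring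
  · refine Eventually.of_forall fun t z _ => ?_
    have h1 : HasDerivAt (fun z : ℂ => z * t) t z := by
      simpa using (hasDerivAt_id z).mul_const (t : ℂ)
    have h2 := (HasDerivAt.ccos h1).const_mul ((kr b t : ℝ) : ℂ)
    exact h2

/-- lower bound on the imaginary axis -/
lemma low {b : ℝ} (hb : 0 < b) {y : ℝ} (hy : 1 ≤ y) :
    Real.exp (y / 4 * Real.log y - Real.pi * Real.exp 4 * y - b * (Real.log y / 4 + 1) ^ 2) / 2 ≤
      ∫ t in Set.Ioi (0 : ℝ), kr b t * Real.cosh (y * t) := by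
  have hy0 : 0 < y := by linarith
  set T := Real.log y / 4 with hT
  have hT0 : 0 ≤ T := div_nonneg (Real.log_nonneg hy) (by norm_num)
  have hpt : ∀ t ∈ Set.Ioc T (T + 1),
      Real.exp (y / 4 * Real.log y - Real.pi * Real.exp 4 * y - b * (T + 1) ^ 2) / 2 ≤
        kr b t * Real.cosh (y * t) := by
    intro t ht
    have ht0 : 0 ≤ t := by linarith [ht.1]
    have h1 : Real.exp (4 * t) ≤ Real.exp 4 * y := by
      calc Real.exp (4 * t) ≤ Real.exp (4 + Real.log y) := by
            refine Real.exp_le_exp.2 ?_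
            have := ht.2
            rw [hT] at this
            linarith
        _ = Real.exp 4 * y := by rw [Real.exp_add, Real.exp_log hy0]
    have h2 : Real.exp (-(Real.pi * Real.exp 4 * y)) ≤ Helper242.RK.Phi t := by
      refine le_trans (Real.exp_le_exp.2 ?_) (Helper242.RK.Phi_lower ht0)
      have : Real.pi * Real.exp (4 * t) ≤ Real.pi * (Real.exp 4 * y) := by gcongr
      linarith
    have h2' : Real.exp (-(b * (T + 1) ^ 2)) ≤ Real.exp (-b * t ^ 2) := by
      refine Real.exp_le_exp.2 ?_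
      have h6 : t ^ 2 ≤ (T + 1) ^ 2 := by
        have := ht.2
        gcongr
      nlinarith
    have h3 : Real.exp (y / 4 * Real.log y) / 2 ≤ Real.cosh (y * t) := by
      rw [Real.cosh_eq]
      have h4 : Real.exp (y / 4 * Real.log y) ≤ Real.exp (y * t) := by
        refine Real.exp_le_exp.2 ?_
        have := ht.1
        rw [hT] at this
        nlinarith
      have := Real.exp_pos (-(y * t))
      linarith
    calc Real.exp (y / 4 * Real.log y - Real.pi * Real.exp 4 * y - b * (T + 1) ^ 2) / 2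
        = (Real.exp (-(b * (T + 1) ^ 2)) * Real.exp (-(Real.pi * Real.exp 4 * y))) *
          (Real.exp (y / 4 * Real.log y) / 2) := by
          rw [← mul_div_assoc, ← Real.exp_add, ← Real.exp_add]
          congr 2
          ring
      _ ≤ _ := mul_le_mul (mul_le_mul h2' h2 (Real.exp_pos _).le (Real.exp_pos _).le) h3
          (by positivity) (kr_pos b t).le
  have hsub : Set.Ioc T (T + 1) ⊆ Set.Ioi (0 : ℝ) := fun t ht => lt_of_le_of_lt hT0 ht.1
  have h1 : ∫ t in Set.Ioc T (T + 1),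
      Real.exp (y / 4 * Real.log y - Real.pi * Real.exp 4 * y - b * (T + 1) ^ 2) / 2 ≤
      ∫ t in Set.Ioc T (T + 1), kr b t * Real.cosh (y * t) := by
    refine setIntegral_mono_on ?_ ((kr_cosh hb y).mono_set hsub) measurableSet_Ioc hpt
    exact integrableOn_const (by simp)
  have h2 : ∫ t in Set.Ioc T (T + 1), kr b t * Real.cosh (y * t) ≤
      ∫ t in Set.Ioi (0 : ℝ), kr b t * Real.cosh (y * t) := by
    refine setIntegral_mono_set (kr_cosh hb y) ?_ hsub.eventuallyLE
    refine (ae_restrict_iff' measurableSet_Ioi).2 (Eventually.of_forall fun t _ => ?_)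
    exact mul_nonneg (kr_pos b t).le (Real.cosh_pos _).le
  have h3 : ∫ t in Set.Ioc T (T + 1),
      Real.exp (y / 4 * Real.log y - Real.pi * Real.exp 4 * y - b * (T + 1) ^ 2) / 2 =
      Real.exp (y / 4 * Real.log y - Real.pi * Real.exp 4 * y - b * (T + 1) ^ 2) / 2 := by
    rw [setIntegral_const]
    simp
  rw [h3] at h1
  exact h1.trans h2

/-- **(GRO)** -/
theorem t_GRO : S_GRO := by
  intro b hb
  obtain ⟨C, hC, hup⟩ := Helper242.RK.m_upper (α := 1) one_pos
  -- logarithms are large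
  have hlog : ∀ M : ℝ, ∃ R : ℝ, 2 ≤ R ∧ ∀ r : ℝ, R ≤ r → M ≤ Real.log r := by
    intro M
    obtain ⟨R, hR⟩ := (Filter.tendsto_atTop.1 Real.tendsto_log_atTop M).exists_forall_of_atTop
    exact ⟨max R 2, le_max_right _ _, fun r hr => hR r ((le_max_left _ _).trans hr)⟩
  obtain ⟨R₁, hR₁, hl₁⟩ := hlog (2 * C)
  obtain ⟨R₂, hR₂, hl₂⟩ := hlog (20 * (Real.pi * Real.exp 4 + 16 * b + 1))
  refine ⟨max R₁ R₂, hR₁.trans (le_max_left _ _), fun z hz => ?_, fun y hy => ?_, ?_, Hd_diff hb⟩
  · have hz1 : 2 ≤ ‖z‖ := hR₁.trans ((le_max_left _ _).trans hz)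
    have h1 := hl₁ ‖z‖ ((le_max_left _ _).trans hz)
    refine (Hd_le hb z).trans ((hup ‖z‖ (by linarith)).trans (Real.exp_le_exp.2 ?_))
    nlinarith
  · have hy2 : 2 ≤ y := hR₂.trans ((le_max_right _ _).trans hy)
    have h1 := hl₂ y ((le_max_right _ _).trans hy)
    have hlow := low hb (by linarith : 1 ≤ y)
    rw [Hd_I, norm_real, Real.norm_eq_abs]
    refine le_trans ?_ ((hlow).trans (le_abs_self _))
    have hl0 : 0 ≤ Real.log y := Real.log_nonneg (by linarith)
    -- `log² y ≤ 16 y`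
    have hl2 : (Real.log y / 4 + 1) ^ 2 ≤ 16 * y := by
      have h3 : Real.log y / 4 + 1 ≤ Real.exp (Real.log y / 4) := Real.add_one_le_exp _
      have h4 : (Real.log y / 4 + 1) ^ 2 ≤ Real.exp (Real.log y / 4) ^ 2 := by gcongr
      rw [← Real.exp_nat_mul] at h4
      have h5 : Real.exp (((2 : ℕ) : ℝ) * (Real.log y / 4)) ≤ Real.exp (Real.log y) :=
        Real.exp_le_exp.2 (by push_cast; linarith)
      rw [Real.exp_log (by linarith)] at h5
      linarith
    have h6 : Real.exp (y / 5 * Real.log y) ≤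
        Real.exp (y / 4 * Real.log y - Real.pi * Real.exp 4 * y - b * (Real.log y / 4 + 1) ^ 2 - y) := by
      refine Real.exp_le_exp.2 ?_
      have h7 : b * (Real.log y / 4 + 1) ^ 2 ≤ b * (16 * y) := by gcongr
      have h8 : y * (20 * (Real.pi * Real.exp 4 + 16 * b + 1)) ≤ y * Real.log y :=
        mul_le_mul_of_nonneg_left h1 (by linarith)
      nlinarith
    refine h6.trans ?_
    rw [Real.exp_sub _ y]
    refine div_le_div_of_nonneg_left (Real.exp_pos _).le two_pos ?_
    linarith [Real.add_one_le_exp y]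
  · have h0 := low hb (le_refl (1 : ℝ))
    have h1 : Hd (-b) 0 = ((∫ t in Set.Ioi (0 : ℝ), kr b t * Real.cosh (0 * t) : ℝ) : ℂ) := by
      have := Hd_I b 0
      simpa using this
    rw [h1]
    have h2 : 0 < ∫ t in Set.Ioi (0 : ℝ), kr b t * Real.cosh (0 * t) := by
      rw [integral_pos_iff_support_of_nonneg_ae]
      · have hs : Function.support (fun t : ℝ => kr b t * Real.cosh (0 * t)) = Set.univ := by
          ext t
          simp only [Function.mem_support, Set.mem_univ, iff_true]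
          exact (mul_pos (kr_pos b t) (Real.cosh_pos _)).ne'
        rw [hs]
        simp
      · exact Eventually.of_forall fun t => (mul_pos (kr_pos b t) (Real.cosh_pos _)).le
      · exact kr_cosh hb 0
    exact_mod_cast h2.ne'

end

end Pool.Agent.J4H49.NG
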