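import Pool.Agent.J4H4.NG.Stm

/-!
# Project NG (helper4): (GAM), the ratios of the gamma factors
-/

set_option autoImplicit false

namespace Pool.Agent.J4H49.NG

open Complex MeasureTheory Filter Topology Set
open Pool.Agent.J4H4.NG

noncomputable section

/-- **(GAM)** -/
theorem t_GAM (h : S_LOC) : S_GAM := by
  obtain ⟨C, V₀, hC, hV, h⟩ := h
  refine ⟨1 + C, V₀, by linarith, hV, fun v v' hv _ => ?_⟩
  obtain ⟨hne, hb⟩ := h v hv
  refine ⟨hne, ?_⟩
  have h1 := hb (v' - v)
  set u : ℝ := v' - v with hu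
  have hvu : v + u = v' := by rw [hu]; ring
  rw [hvu] at h1
  have hg : 0 < ‖gam (2 + I * v)‖ := norm_pos_iff.2 hne
  have hexp : ‖cexp (I * u * ell v)‖ ≤ Real.exp (Real.pi * |u| / 4) := by
    rw [Complex.norm_exp]
    refine Real.exp_le_exp.2 ?_
    have e : (I * u * ell v).re = -(u * (Real.pi / 4)) := by
      unfold ell
      simp [Complex.mul_re, Complex.mul_im]
    rw [e]
    have := neg_abs_le u
    nlinarith [Real.pi_pos]
  have h5 : (1 : ℝ) ≤ (1 + |u|) ^ 5 := one_le_pow₀ (by linarith [abs_nonneg u])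
  have hE : 0 < Real.exp (Real.pi * |u| / 4) := Real.exp_pos _
  have hCv : C / v ≤ C := div_le_self hC.le (by linarith)
  have h2 : ‖gam (2 + I * v') / gam (2 + I * v)‖ ≤ (1 + C) * (1 + |u|) ^ 5 * Real.exp (Real.pi * |u| / 4) := by
    have h3 : ‖gam (2 + I * v') / gam (2 + I * v)‖ ≤
        ‖gam (2 + I * v') / gam (2 + I * v) - cexp (I * u * ell v)‖ + ‖cexp (I * u * ell v)‖ := by
      have := norm_add_le (gam (2 + I * v') / gam (2 + I * v) - cexp (I * u * ell v)) (cexp (I * u * ell v))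
      rwa [sub_add_cancel] at this
    have h4 : C / v * (1 + |u|) ^ 5 * Real.exp (Real.pi * |u| / 4) ≤
        C * (1 + |u|) ^ 5 * Real.exp (Real.pi * |u| / 4) := by
      refine mul_le_mul_of_nonneg_right (mul_le_mul_of_nonneg_right hCv (by positivity)) hE.le
    have h6 : Real.exp (Real.pi * |u| / 4) ≤ (1 + |u|) ^ 5 * Real.exp (Real.pi * |u| / 4) :=
      le_mul_of_one_le_left hE.le h5
    calc _ ≤ _ := h3
      _ ≤ C * (1 + |u|) ^ 5 * Real.exp (Real.pi * |u| / 4) +
          (1 + |u|) ^ 5 * Real.exp (Real.pi * |u| / 4) :=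
        add_le_add (h1.trans h4) (hexp.trans h6)
      _ = _ := by ring
  rw [norm_div, div_le_iff₀ hg] at h2
  exact h2

end

end Pool.Agent.J4H49.NG
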